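import Pool.Agent.helper27.SY.Spec

/-!
# Project sy (MP_5628fe_nt), module ROOT
-/

set_option autoImplicit false

open Finset ArithmeticFunction

namespace Pool.Agent.SY

open Pool.Agent.SX Pool.Agent.helper85.BVP

/-- divisibility only depends on the residue -/
theorem ROOT_mod (p d k : ℕ) (h : p ∣ d) :
    p ∣ (30 * (k % d) + 1) * (30 * (k % d) + 7) ↔ p ∣ (30 * k + 1) * (30 * k + 7) := by
  have h1 : k % d ≡ k [MOD p] := (Nat.mod_modEq k d).of_dvd h
  have h2 : (30 * (k % d) + 1) * (30 * (k % d) + 7) ≡ (30 * k + 1) * (30 * k + 7) [MOD p] :=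
    ((h1.mul_left 30).add_right 1).mul ((h1.mul_left 30).add_right 7)
  exact Nat.ModEq.dvd_iff h2 dvd_rfl

/-- the residues -/
def ROOT_R (F : Finset ℕ) : Finset ℕ :=
  (range (∏ p ∈ F, p)).filter fun x => ∀ p ∈ F, p ∣ (30 * x + 1) * (30 * x + 7)

theorem ROOT_iff (F : Finset ℕ) (hF : ∀ p ∈ F, p.Prime ∧ 7 ≤ p) (k : ℕ) :
    (∀ p ∈ F, p ∣ (30 * k + 1) * (30 * k + 7)) ↔ k % (∏ p ∈ F, p) ∈ ROOT_R F := by
  have hpos : 0 < ∏ p ∈ F, p := Finset.prod_pos fun p hp => (hF p hp).1.pos
  unfold ROOT_R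
  rw [mem_filter, mem_range]
  constructor
  · intro h
    exact ⟨Nat.mod_lt _ hpos, fun p hp => (ROOT_mod p _ k (Finset.dvd_prod_of_mem _ hp)).2 (h p hp)⟩
  · rintro ⟨-, h⟩ p hp
    exact (ROOT_mod p _ k (Finset.dvd_prod_of_mem _ hp)).1 (h p hp)

/-- one prime: two residues -/
theorem ROOT_one (p : ℕ) (hp : p.Prime) (h7 : 7 ≤ p) :
    ((range p).filter fun x => p ∣ (30 * x + 1) * (30 * x + 7)).card = 2 := by
  have : Fact p.Prime := ⟨hp⟩
  have : NeZero p := ⟨hp.ne_zero⟩
  have h30 : (30 : ZMod p) ≠ 0 := by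
    intro h
    have h1 : ((30 : ℕ) : ZMod p) = 0 := by exact_mod_cast h
    rw [ZMod.natCast_eq_zero_iff] at h1
    have h2 : p ∣ 2 * 3 * 5 := by
      have : (30 : ℕ) = 2 * 3 * 5 := by norm_num
      rwa [this] at h1
    rcases (hp.dvd_mul).1 h2 with h3 | h3
    · rcases (hp.dvd_mul).1 h3 with h4 | h4
      · have := Nat.le_of_dvd (by norm_num) h4; omega
      · have := Nat.le_of_dvd (by norm_num) h4; omega
    · have := Nat.le_of_dvd (by norm_num) h3; omega
  have h6 : (6 : ZMod p) ≠ 0 := by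
    intro h
    have h1 : ((6 : ℕ) : ZMod p) = 0 := by exact_mod_cast h
    rw [ZMod.natCast_eq_zero_iff] at h1
    have := Nat.le_of_dvd (by norm_num) h1
    omega
  have hne : (-1 / 30 : ZMod p) ≠ -7 / 30 := by
    intro h
    rw [div_left_inj' h30] at h
    apply h6
    linear_combination h
  rw [← Finset.card_pair hne]
  refine Finset.card_bij (fun x _ => (x : ZMod p)) ?_ ?_ ?_
  · intro x hx
    rw [mem_filter, mem_range] at hx
    have h1 : (((30 * x + 1) * (30 * x + 7) : ℕ) : ZMod p) = 0 :=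
      (ZMod.natCast_eq_zero_iff _ _).2 hx.2
    push_cast at h1
    rw [mem_insert, mem_singleton]
    rcases mul_eq_zero.1 h1 with h | h
    · left
      rw [eq_div_iff h30]
      linear_combination h
    · right
      rw [eq_div_iff h30]
      linear_combination h
  · intro x hx y hy h
    rw [mem_filter, mem_range] at hx hy
    have h1 := (ZMod.natCast_eq_natCast_iff x y p).1 h
    have h2 : x % p = y % p := h1
    rwa [Nat.mod_eq_of_lt hx.1, Nat.mod_eq_of_lt hy.1] at h2
  · intro z hz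
    refine ⟨z.val, ?_, ZMod.natCast_zmod_val z⟩
    rw [mem_filter, mem_range]
    refine ⟨ZMod.val_lt z, ?_⟩
    rw [← ZMod.natCast_eq_zero_iff]
    push_cast
    rw [ZMod.natCast_zmod_val]
    rw [mem_insert, mem_singleton] at hz
    rcases hz with rfl | rfl
    · have : (30 : ZMod p) * (-1 / 30) = -1 := by field_simp
      rw [this]; ring
    · have : (30 : ZMod p) * (-7 / 30) = -7 := by field_simp
      rw [this]; ring

theorem ROOT_card (F : Finset ℕ) (hF : ∀ p ∈ F, p.Prime ∧ 7 ≤ p) : (ROOT_R F).card = 2 ^ F.card := by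
  classical
  induction F using Finset.induction_on with
  | empty => simp [ROOT_R]
  | insert p F hp ih =>
    have hpp := (hF p (mem_insert_self p F)).1
    have hp7 := (hF p (mem_insert_self p F)).2
    have hF' : ∀ q ∈ F, q.Prime ∧ 7 ≤ q := fun q hq => hF q (mem_insert_of_mem hq)
    have ihF := ih hF'
    have hd : 0 < ∏ q ∈ F, q := Finset.prod_pos fun q hq => (hF' q hq).1.pos
    have hco : Nat.Coprime p (∏ q ∈ F, q) := by
      apply Nat.Coprime.prod_right
      intro q hq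
      rw [Nat.coprime_primes hpp (hF' q hq).1]
      rintro rfl
      exact hp hq
    rw [card_insert_of_notMem hp, pow_succ', ← ihF, ← ROOT_one p hpp hp7, ← card_product]
    refine Finset.card_bij (fun x _ => (x % p, x % ∏ q ∈ F, q)) ?_ ?_ ?_
    · intro x hx
      unfold ROOT_R at hx
      rw [mem_filter, mem_range] at hx
      rw [mem_product]
      refine ⟨?_, ?_⟩
      · rw [mem_filter, mem_range]
        exact ⟨Nat.mod_lt _ hpp.pos, (ROOT_mod p p x dvd_rfl).2 (hx.2 p (mem_insert_self p F))⟩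
      · exact (ROOT_iff F hF' x).1 fun q hq => hx.2 q (mem_insert_of_mem hq)
    · intro x hx y hy h
      unfold ROOT_R at hx hy
      rw [mem_filter, mem_range, prod_insert hp] at hx hy
      rw [Prod.mk.injEq] at h
      have h1 : x ≡ y [MOD p * ∏ q ∈ F, q] := (Nat.modEq_and_modEq_iff_modEq_mul hco).1 ⟨h.1, h.2⟩
      have h2 : x % (p * ∏ q ∈ F, q) = y % (p * ∏ q ∈ F, q) := h1
      rwa [Nat.mod_eq_of_lt hx.1, Nat.mod_eq_of_lt hy.1] at h2
    · rintro ⟨u, v⟩ huv
      rw [mem_product] at huv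
      obtain ⟨hu, hv⟩ := huv
      rw [mem_filter, mem_range] at hu
      unfold ROOT_R at hv
      rw [mem_filter, mem_range] at hv
      set z := Nat.chineseRemainder hco u v with hz
      have hz1 : (z : ℕ) ≡ u [MOD p] := z.2.1
      have hz2 : (z : ℕ) ≡ v [MOD ∏ q ∈ F, q] := z.2.2
      have hzlt : (z : ℕ) < p * ∏ q ∈ F, q :=
        Nat.chineseRemainder_lt_mul hco u v hpp.ne_zero hd.ne'
      have e1 : (z : ℕ) % p = u := by
        have : (z : ℕ) % p = u % p := hz1
        rw [this, Nat.mod_eq_of_lt hu.1]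
      have e2 : (z : ℕ) % (∏ q ∈ F, q) = v := by
        have : (z : ℕ) % (∏ q ∈ F, q) = v % (∏ q ∈ F, q) := hz2
        rw [this, Nat.mod_eq_of_lt hv.1]
      refine ⟨z, ?_, by rw [e1, e2]⟩
      unfold ROOT_R
      rw [mem_filter, mem_range, prod_insert hp]
      refine ⟨hzlt, ?_⟩
      intro q hq
      rw [mem_insert] at hq
      rcases hq with rfl | hq
      · apply (ROOT_mod q q z dvd_rfl).1
        rw [e1]
        exact hu.2
      · apply (ROOT_mod q (∏ q ∈ F, q) z (Finset.dvd_prod_of_mem _ hq)).1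
        rw [e2]
        exact hv.2 q hq

/-- one class -/
theorem ROOT_class (d r K y : ℕ) (hd : 0 < d) :
    |((((Ioc y (y + K)).filter fun k => k % d = r).card : ℕ) : ℝ) - (K : ℝ) / d| ≤ 1 ∨ d ≤ r := by
  by_cases hr : r < d
  · left
    have he : ((Ioc y (y + K)).filter fun k => k % d = r) =
        ((Ioc y (y + K)).filter fun k => k ≡ r [MOD d]) := by
      apply filter_congr
      intro k _
      unfold Nat.ModEq
      rw [Nat.mod_eq_of_lt hr]
    rw [he]
    have h := Nat.Ioc_filter_modEq_card y (y + K) hd r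
    have hdq : (0 : ℚ) < d := by exact_mod_cast hd
    set A : ℚ := (((y + K : ℕ) : ℚ) - r) / d with hA
    set B : ℚ := ((y : ℚ) - r) / d with hB
    have hAB : A - B = K / d := by
      rw [hA, hB]
      push_cast
      ring
    have hle : ⌊B⌋ ≤ ⌊A⌋ := by
      apply Int.floor_le_floor
      have : (0 : ℚ) ≤ K / d := by positivity
      linarith
    have hmax : max (⌊A⌋ - ⌊B⌋) 0 = ⌊A⌋ - ⌊B⌋ := max_eq_left (by omega)
    have h2 : ((((Ioc y (y + K)).filter fun k => k ≡ r [MOD d]).card : ℕ) : ℤ) = ⌊A⌋ - ⌊B⌋ := by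
      rw [← hmax]
      exact h
    have h3 : ((((Ioc y (y + K)).filter fun k => k ≡ r [MOD d]).card : ℕ) : ℚ) =
        (⌊A⌋ : ℚ) - ⌊B⌋ := by exact_mod_cast h2
    have h4 : |((((Ioc y (y + K)).filter fun k => k ≡ r [MOD d]).card : ℕ) : ℚ) - (K : ℚ) / d| ≤ 1 := by
      rw [h3, ← hAB, abs_le]
      have a1 := Int.floor_le A
      have a2 := Int.lt_floor_add_one A
      have a3 := Int.floor_le B
      have a4 := Int.lt_floor_add_one B
      constructor <;> linarith
    have h5 := (Rat.cast_le (K := ℝ)).2 h4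
    push_cast at h5
    exact h5
  · right
    omega

theorem ROOT_rr (F : Finset ℕ) (K y : ℕ) (hF : ∀ p ∈ F, p.Prime ∧ 7 ≤ p) :
    |rr K y F| ≤ 2 ^ F.card := by
  have hd : 0 < ∏ p ∈ F, p := Finset.prod_pos fun p hp => (hF p hp).1.pos
  have hcnt : cnt K y F =
      ∑ r ∈ ROOT_R F, ((Ioc y (y + K)).filter fun k => k % (∏ p ∈ F, p) = r).card := by
    unfold cnt
    rw [Finset.card_eq_sum_card_fiberwise (f := fun k => k % (∏ p ∈ F, p)) (t := ROOT_R F)]
    · apply Finset.sum_congr rfl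
      intro r hr
      congr 1
      ext k
      simp only [mem_filter]
      constructor
      · rintro ⟨⟨h1, -⟩, h3⟩
        exact ⟨h1, h3⟩
      · rintro ⟨h1, h3⟩
        refine ⟨⟨h1, ?_⟩, h3⟩
        rw [ROOT_iff F hF k, h3]
        exact hr
    · intro k hk
      rw [mem_coe, mem_filter] at hk
      rw [mem_coe]
      exact (ROOT_iff F hF k).1 hk.2
  have hg : g F = (2 : ℝ) ^ F.card / (∏ p ∈ F, p : ℕ) := by
    unfold g
    rw [Finset.prod_div_distrib, Finset.prod_const]
    push_cast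
    rfl
  unfold rr
  rw [hcnt, hg]
  have hRc : ((ROOT_R F).card : ℝ) = 2 ^ F.card := by
    rw [ROOT_card F hF]
    push_cast
    rfl
  have heq : ((∑ r ∈ ROOT_R F, ((Ioc y (y + K)).filter fun k => k % (∏ p ∈ F, p) = r).card : ℕ) : ℝ) -
      K * ((2 : ℝ) ^ F.card / (∏ p ∈ F, p : ℕ)) =
      ∑ r ∈ ROOT_R F, (((((Ioc y (y + K)).filter fun k => k % (∏ p ∈ F, p) = r).card : ℕ) : ℝ) -
        (K : ℝ) / (∏ p ∈ F, p : ℕ)) := by
    rw [Finset.sum_sub_distrib, Finset.sum_const, nsmul_eq_mul, hRc]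
    push_cast
    ring
  rw [heq, ← hRc]
  refine le_trans (Finset.abs_sum_le_sum_abs _ _) ?_
  have : ((ROOT_R F).card : ℝ) = ∑ r ∈ ROOT_R F, (1 : ℝ) := by simp
  rw [this]
  apply Finset.sum_le_sum
  intro r hr
  rcases ROOT_class (∏ p ∈ F, p) r K y hd with h | h
  · exact h
  · exfalso
    unfold ROOT_R at hr
    rw [mem_filter, mem_range] at hr
    omega

theorem ROOT : ROOT_stmt := by
  refine ⟨fun F hF => ⟨ROOT_R F, Finset.filter_subset _ _, ROOT_card F hF, ROOT_iff F hF⟩, ?_⟩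
  intro F K y hF
  exact ROOT_rr F K y hF

end Pool.Agent.SY
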